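import Pool.Agent.Helper43.FV.SpecG

/-!
# Module GACT: regular actions give rational actions on the field of rational functions
-/

namespace Pool.Agent.Helper43.FV

open Pool.Agent.Helper43.RS
open scoped ComplexConjugate TensorProduct
open MvPolynomial

section GACT

/-- clearing denominators in the substitution of `P l / Q` into a polynomial `r` -/
theorem GACT_clear {τ : Type} {n : ℕ} (Q : MvPolynomial τ ℂ) (P : Fin n → MvPolynomial τ ℂ)
    (r : MvPolynomial (Fin n) ℂ) : ∃ d0 : ℕ, ∀ d, d0 ≤ d → ∃ S : MvPolynomial τ ℂ,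
      ∀ (v : τ → ℂ) (z : Fin n → ℂ), (∀ l, z l * eval v Q = eval v (P l)) →
        eval v S = eval v Q ^ d * eval z r := by
  induction r using MvPolynomial.induction_on with
  | C a =>
    refine ⟨0, fun d _ => ⟨Q ^ d * C a, fun v z _ => ?_⟩⟩
    simp
  | add p q hp hq =>
    obtain ⟨d1, h1⟩ := hp
    obtain ⟨d2, h2⟩ := hq
    refine ⟨max d1 d2, fun d hd => ?_⟩
    obtain ⟨S1, hS1⟩ := h1 d (le_trans (le_max_left _ _) hd)
    obtain ⟨S2, hS2⟩ := h2 d (le_trans (le_max_right _ _) hd)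
    refine ⟨S1 + S2, fun v z hz => ?_⟩
    rw [map_add, map_add, hS1 v z hz, hS2 v z hz]
    ring
  | mul_X p l hp =>
    obtain ⟨d1, h1⟩ := hp
    refine ⟨d1 + 1, fun d hd => ?_⟩
    obtain ⟨e, rfl⟩ : ∃ e, d = e + 1 := ⟨d - 1, by omega⟩
    obtain ⟨S1, hS1⟩ := h1 e (by omega)
    refine ⟨S1 * P l, fun v z hz => ?_⟩
    rw [map_mul, map_mul, eval_X, hS1 v z hz, ← hz l]
    ring

/-- partial evaluation -/
noncomputable def GACT_pe {τ : Type} {n : ℕ} (w : τ → ℂ) (S : MvPolynomial (τ ⊕ Fin n) ℂ) :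
    MvPolynomial (Fin n) ℂ :=
  aeval (Sum.elim (fun e => (C (w e) : MvPolynomial (Fin n) ℂ)) MvPolynomial.X) S

theorem GACT_eval_pe {τ : Type} {n : ℕ} (w : τ → ℂ) (S : MvPolynomial (τ ⊕ Fin n) ℂ)
    (z : Fin n → ℂ) : eval z (GACT_pe w S) = eval (Sum.elim w z) S := by
  unfold GACT_pe
  induction S using MvPolynomial.induction_on with
  | C a => simp
  | add p q hp hq => rw [map_add, map_add, map_add, hp, hq]
  | mul_X p l hp =>
    rw [map_mul, map_mul, map_mul, hp, aeval_X, eval_X]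
    rcases l with l | l <;> simp

variable {K : Type} [Field K] [Algebra ℂ K]

/-- families of elements of `K` as a subspace -/
def GACT_span {G : Type} (H : Subalgebra ℂ (G → ℂ)) : Submodule ℂ (G → K) :=
  Submodule.span ℂ {P | ∃ h ∈ H, ∃ k : K, P = fun g => (h : G → ℂ) g • k}

theorem GACT_fam {G : Type} (H : Subalgebra ℂ (G → ℂ)) (P : G → K)
    (hP : P ∈ GACT_span (K := K) H) : GFam H P := by
  rw [GACT_span, Submodule.mem_span_set'] at hP
  obtain ⟨n, f, g, rfl⟩ := hP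
  choose h hh k hk using fun i => (g i).2
  refine ⟨n, fun i x => f i * h i x, k, fun i => ?_, fun x => ?_⟩
  · exact H.smul_mem (hh i) (f i)
  · rw [Finset.sum_apply]
    refine Finset.sum_congr rfl fun i _ => ?_
    rw [Pi.smul_apply, hk i, smul_smul]

theorem GACT_mulH {G : Type} (H : Subalgebra ℂ (G → ℂ)) (P : G → K)
    (hP : P ∈ GACT_span (K := K) H) (h : G → ℂ) (hh : h ∈ H) :
    (fun g => h g • P g) ∈ GACT_span (K := K) H := by
  refine Submodule.span_induction ?_ ?_ ?_ ?_ hP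
  · rintro _ ⟨h', hh', k, rfl⟩
    refine Submodule.subset_span ⟨h * h', H.mul_mem hh hh', k, ?_⟩
    ext g
    rw [Pi.mul_apply, smul_smul]
  · have : (fun g => h g • (0 : G → K) g) = 0 := by
      ext g
      simp
    rw [this]
    exact Submodule.zero_mem _
  · intro P1 P2 _ _ h1 h2
    have : (fun g => h g • (P1 + P2) g) = (fun g => h g • P1 g) + fun g => h g • P2 g := by
      ext g
      simp [smul_add]
    rw [this]
    exact Submodule.add_mem _ h1 h2
  · intro c P1 _ h1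
    have : (fun g => h g • (c • P1) g) = c • fun g => h g • P1 g := by
      ext g
      rw [Pi.smul_apply, Pi.smul_apply, smul_comm]
    rw [this]
    exact Submodule.smul_mem _ _ h1

theorem GACT_mulK {G : Type} (H : Subalgebra ℂ (G → ℂ)) (P : G → K)
    (hP : P ∈ GACT_span (K := K) H) (k : K) :
    (fun g => P g * k) ∈ GACT_span (K := K) H := by
  refine Submodule.span_induction ?_ ?_ ?_ ?_ hP
  · rintro _ ⟨h', hh', k', rfl⟩
    refine Submodule.subset_span ⟨h', hh', k' * k, ?_⟩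
    ext g
    rw [smul_mul_assoc]
  · have : (fun g => (0 : G → K) g * k) = 0 := by
      ext g
      simp
    rw [this]
    exact Submodule.zero_mem _
  · intro P1 P2 _ _ h1 h2
    have : (fun g => (P1 + P2) g * k) = (fun g => P1 g * k) + fun g => P2 g * k := by
      ext g
      simp [add_mul]
    rw [this]
    exact Submodule.add_mem _ h1 h2
  · intro c P1 _ h1
    have : (fun g => (c • P1) g * k) = c • fun g => P1 g * k := by
      ext g
      rw [Pi.smul_apply, Pi.smul_apply, smul_mul_assoc]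
    rw [this]
    exact Submodule.smul_mem _ _ h1

/-- the family given by a polynomial in the entries and the coordinates -/
theorem GACT_poly {G τ : Type} {n : ℕ} (H : Subalgebra ℂ (G → ℂ)) (w : G → τ → ℂ)
    (hw : ∀ e, (fun g => w g e) ∈ H) (cr : MvPolynomial (Fin n) ℂ →ₐ[ℂ] K)
    (S : MvPolynomial (τ ⊕ Fin n) ℂ) :
    (fun g => cr (GACT_pe (w g) S)) ∈ GACT_span (K := K) H := by
  unfold GACT_pe
  induction S using MvPolynomial.induction_on with
  | C a =>
    refine Submodule.subset_span ⟨fun _ => a, H.algebraMap_mem a, 1, ?_⟩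
    ext g
    simp [Algebra.smul_def]
  | add p q hp hq =>
    have := Submodule.add_mem _ hp hq
    refine (congrArg (· ∈ GACT_span (K := K) H) ?_).mpr this
    ext g
    simp
  | mul_X p l hp =>
    rcases l with l | l
    · have := GACT_mulH H _ hp _ (hw l)
      refine (congrArg (· ∈ GACT_span (K := K) H) ?_).mpr this
      ext g
      simp only [map_mul, aeval_X, Sum.elim_inl]
      rw [← algebraMap_eq, AlgHom.commutes, mul_comm, Algebra.smul_def]
    · have := GACT_mulK H _ hp (cr (MvPolynomial.X l))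
      refine (congrArg (· ∈ GACT_span (K := K) H) ?_).mpr this
      ext g
      simp only [map_mul, aeval_X, Sum.elim_inr]

end GACT

section GACTmain

variable {X : Type} {𝒜 : Atlas X} {K : Type} [Field K] [Algebra ℂ K]
  {cr : Fin 𝒜.k → MvPolynomial (Fin 𝒜.n) ℂ →ₐ[ℂ] K}

/-- two rational functions with the same values on a dense open set -/
theorem GACT_ident (hGEV : ST_GEV) (hA : IsNormalVariety 𝒜) (hF : IsFunK 𝒜 cr) (i : Fin 𝒜.k)
    (q : MvPolynomial (Fin 𝒜.n) ℂ) (hq : cr i q ≠ 0) (f g : K)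
    (h : ∀ y ∈ 𝒜.U i, eval (𝒜.φ i y) q ≠ 0 → ∃ c, Ev cr f y c ∧ Ev cr g y c) : f = g := by
  obtain ⟨-, -, -, -, -, -, -, h8⟩ := hGEV X 𝒜 hA K cr hF
  have h1 : ∃ x ∈ 𝒜.U i, eval (𝒜.φ i x) q ≠ 0 := by
    by_contra hc
    push Not at hc
    exact hq ((hF.zero i q).2 hc)
  obtain ⟨x, hx, hxq⟩ := h1
  exact h8 f g ⟨i, x, hx, q, hxq, h⟩

/-- two functions with the same values are equal -/
theorem GACT_ext (hGEV : ST_GEV) (hA : IsNormalVariety 𝒜) (hF : IsFunK 𝒜 cr) (f g : K)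
    (h : ∀ y c, Ev cr f y c → Ev cr g y c) : f = g := by
  have i : Fin 𝒜.k := ⟨0, hA.charts⟩
  obtain ⟨p, q, hq, hpq⟩ := hF.frac i f
  refine GACT_ident hGEV hA hF i q hq f g fun y hy hqy => ?_
  have h1 : Ev cr f y (eval (𝒜.φ i y) p / eval (𝒜.φ i y) q) :=
    ⟨i, p, q, hy, hqy, hpq, by field_simp⟩
  exact ⟨_, h1, h _ _ h1⟩

end GACTmain

/-- Module GACT. -/
theorem st_GACT (hGEV : ST_GEV) (hGMAP : ST_GMAP) : ST_GACT := by
  intro X 𝒜 hA K _ _ cr hF m G _ hG
  obtain ⟨-, hadd, hmul, hinv, hconst, hpoly, hrep, -⟩ := hGEV X 𝒜 hA K cr hF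
  -- the automorphism defined by a group element
  have hreg : ∀ g : G, IsRegMap 𝒜 (MulAction.toPerm g : X ≃ X) := by
    intro g i j x hx hgx
    obtain ⟨q, p, hq, h⟩ := hG i j g x hx hgx
    refine ⟨GACT_pe (entries (g : GL (Fin m) ℂ)) q,
      fun l => GACT_pe (entries (g : GL (Fin m) ℂ)) (p l), ?_, fun y hy hqy => ?_⟩
    · rw [GACT_eval_pe]
      exact hq
    · rw [GACT_eval_pe] at hqy
      obtain ⟨h1, h2⟩ := h g y hy hqy
      refine ⟨h1, fun l => ?_⟩
      rw [GACT_eval_pe, GACT_eval_pe]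
      exact h2 l
  have hsymm : ∀ g : G, ((MulAction.toPerm g : X ≃ X).symm : X → X) =
      ((MulAction.toPerm g⁻¹ : X ≃ X) : X → X) := by
    intro g
    ext x
    simp [MulAction.toPerm_symm_apply]
  have haut : ∀ g : G, ∃ a : K ≃ₐ[ℂ] K, Pres (PtSet cr) a ∧
      ∀ h x c, Ev cr h x c ↔ Ev cr (a h) (g • x) c := by
    intro g
    obtain ⟨a, ha1, ha2⟩ := (hGMAP X 𝒜 hA K cr hF (MulAction.toPerm g)).1 (hreg g)
      (by rw [hsymm]; exact hreg g⁻¹)
    exact ⟨a, ha1, ha2⟩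
  choose a ha hav using haut
  have hav' : ∀ (g : G) h x c, Ev cr (a g h) x c ↔ Ev cr h (g⁻¹ • x) c := by
    intro g h x c
    rw [hav g h (g⁻¹ • x) c, smul_inv_smul]
  have hmulg : ∀ g g' : G, a (g * g') = a g * a g' := by
    intro g g'
    ext h
    refine GACT_ext hGEV hA hF _ _ fun y c hc => ?_
    rw [hav'] at hc
    rw [AlgEquiv.mul_apply, hav', hav', smul_smul, ← mul_inv_rev]
    exact hc
  have hone : a 1 = 1 := by
    ext h
    refine GACT_ext hGEV hA hF _ _ fun y c hc => ?_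
    rw [hav', inv_one, one_smul] at hc
    exact hc
  refine ⟨⟨⟨a, hone⟩, hmulg⟩, ?_, ha, hav⟩
  intro f
  show ∃ N D : G → K, GFam (groupFun G) N ∧ GFam (groupFun G) D ∧ D 1 ≠ 0 ∧
    ∀ g, D g * a g f = N g
  have i : Fin 𝒜.k := ⟨0, hA.charts⟩
  obtain ⟨p, q, hq, hpq⟩ := hF.frac i f
  obtain ⟨x0, hx0⟩ := hA.nonempty i
  obtain ⟨Q, P, hQ, hQP⟩ := hG i i 1 x0 hx0 (by rw [one_smul]; exact hx0)
  obtain ⟨d1, h1⟩ := GACT_clear Q P p
  obtain ⟨d2, h2⟩ := GACT_clear Q P q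
  obtain ⟨Sp, hSp⟩ := h1 (max d1 d2) (le_max_left _ _)
  obtain ⟨Sq, hSq⟩ := h2 (max d1 d2) (le_max_right _ _)
  set d := max d1 d2 with hd
  -- the entries of the inverse
  let w : G → (Fin m × Fin m) ⊕ (Fin m × Fin m) → ℂ := fun g => entries ((g⁻¹ : G) : GL (Fin m) ℂ)
  have hw : ∀ e, (fun g => w g e) ∈ groupFun G := by
    intro e
    rw [mem_groupFun]
    rcases e with e | e
    · exact ⟨MvPolynomial.X (Sum.inr e), fun g => by simp [w, entries]⟩
    · exact ⟨MvPolynomial.X (Sum.inl e), fun g => by simp [w, entries]⟩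
  -- the key identity
  have key : ∀ (r : MvPolynomial (Fin 𝒜.n) ℂ)
      (S : MvPolynomial (((Fin m × Fin m) ⊕ (Fin m × Fin m)) ⊕ Fin 𝒜.n) ℂ),
      (∀ (v : ((Fin m × Fin m) ⊕ (Fin m × Fin m)) ⊕ Fin 𝒜.n → ℂ) (z : Fin 𝒜.n → ℂ),
        (∀ l, z l * eval v Q = eval v (P l)) → eval v S = eval v Q ^ d * eval z r) →
      ∀ g : G, cr i (GACT_pe (w g) (Q * S)) =
        a g (cr i r) * cr i (GACT_pe (w g) Q) ^ (d + 1) := by
    intro r S hS g
    by_cases hQg : cr i (GACT_pe (w g) Q) = 0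
    · rw [hQg, zero_pow (Nat.succ_ne_zero d), mul_zero]
      unfold GACT_pe at hQg ⊢
      rw [map_mul, map_mul, hQg, zero_mul]
    · refine GACT_ident hGEV hA hF i (GACT_pe (w g) Q) hQg _ _ fun y hy hQy => ?_
      have h3 := hQy
      rw [GACT_eval_pe] at h3
      obtain ⟨h4, h5⟩ := hQP g⁻¹ y hy h3
      have h6 := hS (Sum.elim (w g) (𝒜.φ i y)) (𝒜.φ i (g⁻¹ • y)) h5
      refine ⟨_, hpoly i _ y hy, ?_⟩
      have h7 : Ev cr (a g (cr i r)) y (eval (𝒜.φ i (g⁻¹ • y)) r) := by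
        rw [hav']
        exact hpoly i r _ h4
      have h8 := hmul _ _ _ _ _ h7 (hpoly i (GACT_pe (w g) Q ^ (d + 1)) y hy)
      rw [map_pow, map_pow, GACT_eval_pe] at h8
      have h9 : eval (𝒜.φ i y) (GACT_pe (w g) (Q * S)) = eval (𝒜.φ i (g⁻¹ • y)) r *
          eval (Sum.elim (w g) (𝒜.φ i y)) Q ^ (d + 1) := by
        rw [GACT_eval_pe, map_mul, h6]
        ring
      rw [h9]
      exact h8
  refine ⟨fun g => cr i (GACT_pe (w g) (Q * Sp)), fun g => cr i (GACT_pe (w g) (Q * Sq)),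
    GACT_fam _ _ (GACT_poly _ w hw (cr i) _), GACT_fam _ _ (GACT_poly _ w hw (cr i) _), ?_,
    fun g => ?_⟩
  · show cr i (GACT_pe (w 1) (Q * Sq)) ≠ 0
    rw [key q Sq hSq 1, hone]
    refine mul_ne_zero hq (pow_ne_zero _ ?_)
    intro h0
    have h3 := (hF.zero i _).1 h0 x0 hx0
    rw [GACT_eval_pe] at h3
    apply hQ
    have : w 1 = entries ((1 : G) : GL (Fin m) ℂ) := by simp [w]
    rwa [this] at h3
  · show cr i (GACT_pe (w g) (Q * Sq)) * a g f = cr i (GACT_pe (w g) (Q * Sp))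
    rw [key q Sq hSq g, key p Sp hSp g, ← hpq, map_mul]
    ring

end Pool.Agent.Helper43.FV

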