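import Pool.Agent.Helper43.FV.SpecG

/-!
# Module GMAPC: from field automorphisms to maps
-/

namespace Pool.Agent.Helper43.FV

open Pool.Agent.Helper43.RS
open scoped ComplexConjugate TensorProduct
open MvPolynomial

section GMAPC

variable {X : Type} {𝒜 : Atlas X} {K : Type} [Field K] [Algebra ℂ K]
  {cr : Fin 𝒜.k → MvPolynomial (Fin 𝒜.n) ℂ →ₐ[ℂ] K}

/-- the rules for values -/
structure GMAPC_Rules (cr : Fin 𝒜.k → MvPolynomial (Fin 𝒜.n) ℂ →ₐ[ℂ] K) : Prop where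
  uniq : ∀ f x c c', Ev cr f x c → Ev cr f x c' → c = c'
  add : ∀ f x c g d, Ev cr f x c → Ev cr g x d → Ev cr (f + g) x (c + d)
  mul : ∀ f x c g d, Ev cr f x c → Ev cr g x d → Ev cr (f * g) x (c * d)
  inv : ∀ f x c, Ev cr f x c → c ≠ 0 → Ev cr f⁻¹ x c⁻¹
  const : ∀ x c, Ev cr (algebraMap ℂ K c) x c
  poly : ∀ i p x, x ∈ 𝒜.U i → Ev cr (cr i p) x (eval (𝒜.φ i x) p)
  rep : ∀ f x c i, Ev cr f x c → x ∈ 𝒜.U i → ∃ p q, eval (𝒜.φ i x) q ≠ 0 ∧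
        f * cr i q = cr i p ∧ c * eval (𝒜.φ i x) q = eval (𝒜.φ i x) p
  ident : ∀ f g, (∃ i, ∃ x ∈ 𝒜.U i, ∃ q, eval (𝒜.φ i x) q ≠ 0 ∧ ∀ y ∈ 𝒜.U i,
        eval (𝒜.φ i y) q ≠ 0 → ∃ c, Ev cr f y c ∧ Ev cr g y c) → f = g

theorem GMAPC_rules (hG : ST_GEV) (hA : IsNormalVariety 𝒜) (hF : IsFunK 𝒜 cr) :
    GMAPC_Rules cr := by
  obtain ⟨h1, h2, h3, h4, h5, h6, h7, h8⟩ := hG X 𝒜 hA K cr hF
  exact ⟨h1, h2, h3, h4, h5, h6, h7, h8⟩

/-- the local ring of `x` -/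
def GMAPC_O (R : GMAPC_Rules cr) (x : X) : Subalgebra ℂ K where
  carrier := {f | ∃ c, Ev cr f x c}
  mul_mem' := by
    rintro a b ⟨c, hc⟩ ⟨d, hd⟩
    exact ⟨_, R.mul _ _ _ _ _ hc hd⟩
  add_mem' := by
    rintro a b ⟨c, hc⟩ ⟨d, hd⟩
    exact ⟨_, R.add _ _ _ _ _ hc hd⟩
  algebraMap_mem' := by
    intro c
    exact ⟨_, R.const x c⟩

theorem GMAPC_mem (R : GMAPC_Rules cr) (x : X) (f : K) :
    f ∈ GMAPC_O R x ↔ ∃ c, Ev cr f x c := Iff.rfl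

/-- values of polynomials in regular functions -/
theorem GMAPC_aeval (R : GMAPC_Rules cr) {ι : Type} (f : ι → K) (x : X) (c : ι → ℂ)
    (h : ∀ l, Ev cr (f l) x (c l)) (P : MvPolynomial ι ℂ) :
    Ev cr (aeval f P) x (eval c P) := by
  induction P using MvPolynomial.induction_on with
  | C a => simpa using R.const x a
  | add p q hp hq => simpa using R.add _ _ _ _ _ hp hq
  | mul_X p l hp => simpa using R.mul _ _ _ _ _ hp (h l)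

theorem GMAPC_cr (i : Fin 𝒜.k) (P : MvPolynomial (Fin 𝒜.n) ℂ) :
    aeval (fun l => cr i (MvPolynomial.X l)) P = cr i P := by
  have : (aeval (fun l => cr i (MvPolynomial.X l)) : MvPolynomial (Fin 𝒜.n) ℂ →ₐ[ℂ] K) = cr i := by
    apply MvPolynomial.algHom_ext
    intro l
    simp
  rw [this]

/-- a map with the given effect on local rings -/
theorem GMAPC_bij (R : GMAPC_Rules cr)
    (hM : ∀ x y, (∀ f, (∃ c, Ev cr f x c) → ∃ c, Ev cr f y c) → x = y)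
    (a : K ≃+* K) (hP : Pres (PtSet cr) a) :
    ∃ f : X ≃ X, ∀ x h, (∃ c, Ev cr h x c) ↔ ∃ c, Ev cr (a h) (f x) c := by
  have h1 : ∀ x : X, ∃ y : X, ∀ h, (∃ c, Ev cr h x c) ↔ ∃ c, Ev cr (a h) y c := by
    intro x
    obtain ⟨O', ⟨y, hy⟩, hO⟩ := hP.1 (GMAPC_O R x) ⟨x, fun f => Iff.rfl⟩
    exact ⟨y, fun h => ((hO h).trans (hy (a h)))⟩
  have h2 : ∀ y : X, ∃ x : X, ∀ h, (∃ c, Ev cr h x c) ↔ ∃ c, Ev cr (a h) y c := by
    intro y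
    obtain ⟨O, ⟨x, hx⟩, hO⟩ := hP.2 (GMAPC_O R y) ⟨y, fun f => Iff.rfl⟩
    exact ⟨x, fun h => ((hx h).symm.trans (hO h))⟩
  choose f hf using h1
  refine ⟨Equiv.ofBijective f ⟨?_, ?_⟩, fun x h => hf x h⟩
  · intro x x' hxx
    apply hM
    intro h hh
    rw [hf x h, hxx, ← hf x' h] at hh
    exact hh
  · intro y
    obtain ⟨x, hx⟩ := h2 y
    refine ⟨x, ?_⟩
    apply hM
    intro h hh
    obtain ⟨h', rfl⟩ := a.surjective h
    exact (hx h').1 ((hf x h').2 hh)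

/-- the effect on values -/
theorem GMAPC_val (R : GMAPC_Rules cr) (s : ℂ → ℂ) (a : K ≃+* K)
    (ha : ∀ c, a (algebraMap ℂ K c) = algebraMap ℂ K (s c)) (f : X ≃ X)
    (hf : ∀ x h, (∃ c, Ev cr h x c) ↔ ∃ c, Ev cr (a h) (f x) c) :
    ∀ h x c, Ev cr h x c ↔ Ev cr (a h) (f x) (s c) := by
  have key : ∀ h x c, Ev cr h x c → Ev cr (a h) (f x) (s c) := by
    intro h x c hc
    obtain ⟨d, hd⟩ := (hf x h).1 ⟨c, hc⟩
    by_cases hds : d = s c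
    · rwa [hds] at hd
    exfalso
    -- the function `h - c` has the value zero at `x`
    have h1 : Ev cr (h + algebraMap ℂ K (-c)) x 0 := by
      have := R.add _ _ _ _ _ hc (R.const x (-c))
      rwa [add_neg_cancel] at this
    have h2 : Ev cr (a (h + algebraMap ℂ K (-c))) (f x) (d - s c) := by
      rw [map_neg, map_add, map_neg, ha, ← map_neg, sub_eq_add_neg]
      exact R.add _ _ _ _ _ hd (R.const (f x) (-s c))
    have hne : d - s c ≠ 0 := sub_ne_zero.2 hds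
    have h3 := R.inv _ _ _ h2 hne
    rw [← map_inv₀] at h3
    obtain ⟨e, he⟩ := (hf x _).2 ⟨_, h3⟩
    have h4 := R.mul _ _ _ _ _ h1 he
    rw [zero_mul] at h4
    by_cases h0 : h + algebraMap ℂ K (-c) = 0
    · rw [h0, map_zero] at h2
      have h5 := R.const (f x) 0
      rw [map_zero] at h5
      exact hne (R.uniq _ _ _ _ h2 h5)
    · rw [mul_inv_cancel₀ h0] at h4
      have h5 := R.const x 1
      rw [map_one] at h5
      exact zero_ne_one (R.uniq _ _ _ _ h4 h5)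
  intro h x c
  refine ⟨key h x c, fun hh => ?_⟩
  obtain ⟨d, hd⟩ := (hf x h).2 ⟨_, hh⟩
  have h1 := R.uniq _ _ _ _ hh (key h x d hd)
  have h2 : c = d := by
    have : a (algebraMap ℂ K c) = a (algebraMap ℂ K d) := by rw [ha, ha, h1]
    exact (algebraMap ℂ K).injective (a.injective this)
  rwa [h2]

/-- a point whose coordinates are regular at `z` is `z` -/
theorem GMAPC_point (R : GMAPC_Rules cr) (hA : IsNormalVariety 𝒜) (hF : IsFunK 𝒜 cr)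
    (hM : ∀ x y, (∀ f, (∃ c, Ev cr f x c) → ∃ c, Ev cr f y c) → x = y)
    (j : Fin 𝒜.k) (z : X) (c : Fin 𝒜.n → ℂ)
    (h : ∀ l, Ev cr (cr j (MvPolynomial.X l)) z (c l)) :
    z ∈ 𝒜.U j ∧ 𝒜.φ j z = c := by
  have h1 : ∀ P, Ev cr (cr j P) z (eval c P) := by
    intro P
    have := GMAPC_aeval R (fun l => cr j (MvPolynomial.X l)) z c h P
    rwa [GMAPC_cr] at this
  obtain ⟨I, hI⟩ := hA.closed j
  have h2 : c ∈ 𝒜.φ j '' 𝒜.U j := by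
    rw [hI]
    intro P hP
    have h3 : cr j P = 0 := by
      rw [hF.zero]
      intro x hx
      have : 𝒜.φ j x ∈ 𝒜.φ j '' 𝒜.U j := ⟨x, hx, rfl⟩
      rw [hI] at this
      exact this P hP
    have h4 := h1 P
    rw [h3] at h4
    have h5 := R.const z 0
    rw [map_zero] at h5
    exact R.uniq _ _ _ _ h4 h5
  obtain ⟨w, hw, hwc⟩ := h2
  have h6 : w = z := by
    apply hM
    rintro f ⟨d, hd⟩
    obtain ⟨p, q, hq, hfq, -⟩ := R.rep _ _ _ j hd hw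
    rw [hwc] at hq
    have h7 := R.inv _ _ _ (h1 q) hq
    have h8 := R.mul _ _ _ _ _ (h1 p) h7
    have hq0 : cr j q ≠ 0 := by
      intro h0
      have h9 := h1 q
      rw [h0] at h9
      have h5 := R.const z 0
      rw [map_zero] at h5
      exact hq (R.uniq _ _ _ _ h9 h5)
    have h9 : f = cr j p * (cr j q)⁻¹ := by
      rw [← hfq, mul_assoc, mul_inv_cancel₀ hq0, mul_one]
    rw [← h9] at h8
    exact ⟨_, h8⟩
  rw [← h6]
  exact ⟨hw, hwc⟩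

/-- regularity of the map -/
theorem GMAPC_reg (R : GMAPC_Rules cr) (hA : IsNormalVariety 𝒜) (hF : IsFunK 𝒜 cr)
    (hM : ∀ x y, (∀ f, (∃ c, Ev cr f x c) → ∃ c, Ev cr f y c) → x = y)
    (s : ℂ → ℂ) (hs : ∀ c, s (s c) = c) (a : K ≃+* K) (f : X → X)
    (hf : ∀ h x c, Ev cr h x c ↔ Ev cr (a h) (f x) (s c)) (i j : Fin 𝒜.k) (x : X)
    (hx : x ∈ 𝒜.U i) (hfx : f x ∈ 𝒜.U j) :
    ∃ (q : MvPolynomial (Fin 𝒜.n) ℂ) (p : Fin 𝒜.n → MvPolynomial (Fin 𝒜.n) ℂ),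
    eval (𝒜.φ i x) q ≠ 0 ∧ ∀ y ∈ 𝒜.U i, eval (𝒜.φ i y) q ≠ 0 →
      f y ∈ 𝒜.U j ∧ ∀ l, s (𝒜.φ j (f y) l) * eval (𝒜.φ i y) q = eval (𝒜.φ i y) (p l) := by
  classical
  have h1 : ∀ l, ∃ p q, eval (𝒜.φ i x) q ≠ 0 ∧
      a.symm (cr j (MvPolynomial.X l)) * cr i q = cr i p := by
    intro l
    have h2 : Ev cr (a.symm (cr j (MvPolynomial.X l))) x (s (𝒜.φ j (f x) l)) := by
      rw [hf, hs, RingEquiv.apply_symm_apply]
      simpa using R.poly j (MvPolynomial.X l) (f x) hfx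
    obtain ⟨p, q, hq, hpq, -⟩ := R.rep _ _ _ i h2 hx
    exact ⟨p, q, hq, hpq⟩
  choose p q hq hpq using h1
  refine ⟨∏ l, q l, fun l => p l * ∏ l' ∈ Finset.univ.erase l, q l', ?_, ?_⟩
  · rw [map_prod]
    exact Finset.prod_ne_zero_iff.2 fun l _ => hq l
  intro y hy hqy
  rw [map_prod] at hqy
  have hqy' : ∀ l, eval (𝒜.φ i y) (q l) ≠ 0 := fun l =>
    Finset.prod_ne_zero_iff.1 hqy l (Finset.mem_univ l)
  have h3 : ∀ l, Ev cr (a.symm (cr j (MvPolynomial.X l))) y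
      (eval (𝒜.φ i y) (p l) / eval (𝒜.φ i y) (q l)) := fun l =>
    ⟨i, p l, q l, hy, hqy' l, hpq l, by field_simp [hqy' l]⟩
  have h4 : ∀ l, Ev cr (cr j (MvPolynomial.X l)) (f y)
      (s (eval (𝒜.φ i y) (p l) / eval (𝒜.φ i y) (q l))) := by
    intro l
    have := (hf _ _ _).1 (h3 l)
    rwa [RingEquiv.apply_symm_apply] at this
  obtain ⟨h5, h6⟩ := GMAPC_point R hA hF hM j (f y) _ h4
  refine ⟨h5, fun l => ?_⟩
  rw [h6, hs, map_prod, map_mul, map_prod,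
    ← Finset.mul_prod_erase Finset.univ (fun l' => eval (𝒜.φ i y) (q l')) (Finset.mem_univ l)]
  have := hqy' l
  field_simp

/-- the main theorem for `ℂ`-linear and antilinear automorphisms at once -/
theorem GMAPC_main (R : GMAPC_Rules cr) (hA : IsNormalVariety 𝒜) (hF : IsFunK 𝒜 cr)
    (hM : ∀ x y, (∀ f, (∃ c, Ev cr f x c) → ∃ c, Ev cr f y c) → x = y)
    (s : ℂ → ℂ) (hs : ∀ c, s (s c) = c) (a : K ≃+* K)
    (ha : ∀ c, a (algebraMap ℂ K c) = algebraMap ℂ K (s c))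
    (hP : Pres (PtSet cr) a) :
    ∃ f : X ≃ X, (∀ i j x, x ∈ 𝒜.U i → f x ∈ 𝒜.U j →
      ∃ (q : MvPolynomial (Fin 𝒜.n) ℂ) (p : Fin 𝒜.n → MvPolynomial (Fin 𝒜.n) ℂ),
      eval (𝒜.φ i x) q ≠ 0 ∧ ∀ y ∈ 𝒜.U i, eval (𝒜.φ i y) q ≠ 0 → f y ∈ 𝒜.U j ∧
        ∀ l, s (𝒜.φ j (f y) l) * eval (𝒜.φ i y) q = eval (𝒜.φ i y) (p l)) ∧
      (∀ i j x, x ∈ 𝒜.U i → f.symm x ∈ 𝒜.U j →
      ∃ (q : MvPolynomial (Fin 𝒜.n) ℂ) (p : Fin 𝒜.n → MvPolynomial (Fin 𝒜.n) ℂ),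
      eval (𝒜.φ i x) q ≠ 0 ∧ ∀ y ∈ 𝒜.U i, eval (𝒜.φ i y) q ≠ 0 → f.symm y ∈ 𝒜.U j ∧
        ∀ l, s (𝒜.φ j (f.symm y) l) * eval (𝒜.φ i y) q = eval (𝒜.φ i y) (p l)) ∧
      ∀ h x c, Ev cr h x c ↔ Ev cr (a h) (f x) (s c) := by
  obtain ⟨f, hf⟩ := GMAPC_bij R hM a hP
  have hv := GMAPC_val R s a ha f hf
  refine ⟨f, fun i j x hx hfx => GMAPC_reg R hA hF hM s hs a f hv i j x hx hfx,
    fun i j x hx hfx => GMAPC_reg R hA hF hM s hs a.symm f.symm ?_ i j x hx hfx, hv⟩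
  intro h x c
  rw [hv (a.symm h), hs, RingEquiv.apply_symm_apply, Equiv.apply_symm_apply]

end GMAPC

/-- Module GMAPC. -/
theorem st_GMAPC (hGEV : ST_GEV) (hGM : ST_GM) : ST_GMAPC := by
  intro X 𝒜 hA K _ _ cr hF
  have R := GMAPC_rules hGEV hA hF
  obtain ⟨-, hM⟩ := hGM X 𝒜 hA K cr hF
  constructor
  · intro a hP
    obtain ⟨f, h1, h2, h3⟩ := GMAPC_main R hA hF hM (fun c => c) (fun c => rfl)
      (a : K ≃+* K) (fun c => a.commutes c) hP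
    exact ⟨f, h1, h2, h3⟩
  · intro a hP ha
    obtain ⟨f, h1, h2, h3⟩ := GMAPC_main R hA hF hM (fun c => conj c)
      (fun c => Complex.conj_conj c) a ha hP
    exact ⟨f, h1, h2, h3⟩

end Pool.Agent.Helper43.FV

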